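import Pool.Agent.helper23.F2.Spec

/-!
# Row `f2:MT2`: Cauchy-Schwarz for the matrices `A^i P A^j`
-/

set_option autoImplicit false

namespace Pool.Agent.F2

open Pool.Agent.helper23.TH

theorem MT2_ip_self {V : Type} [Fintype V] (M : Matrix V V ℝ) : ip M M = nsq M := by
  unfold ip nsq
  exact Finset.sum_congr rfl fun x _ => Finset.sum_congr rfl fun y _ => (sq _).symm

theorem MT2_sum {V L : Type} [Fintype V] [Fintype L] (M N : L → Matrix V V ℝ) :
    ∑ x, ip (M x) (N x) = ∑ z : L × V × V, M z.1 z.2.1 z.2.2 * N z.1 z.2.1 z.2.2 := by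
  rw [Fintype.sum_prod_type]
  refine Finset.sum_congr rfl fun x _ => ?_
  rw [Fintype.sum_prod_type]
  rfl

theorem MT2 (hMT1 : MT1_stmt) : MT2_stmt := by
  classical
  intro V L _ _ A P hA hP i j
  have hn : ∀ (x : L) (i j : ℕ), nsq (A ^ i * P x * A ^ j) = Matrix.trace (P x * A ^ (i + i) * P x * A ^ (j + j)) :=
    fun x i j => by rw [← MT2_ip_self, hMT1 V A (P x) hA (hP x) i j i j]
  constructor
  · have h1 : ∀ x : L, nsq (A ^ (i + 1) * P x * A ^ (j + 1)) =
        ip (A ^ i * P x * A ^ (j + 2)) (A ^ (i + 2) * P x * A ^ j) := by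
      intro x
      rw [hn, hMT1 V A (P x) hA (hP x)]
      have e1 : i + 1 + (i + 1) = i + (i + 2) := by ring
      have e2 : j + 1 + (j + 1) = j + 2 + j := by ring
      rw [e1, e2]
    have h2 : ∀ M : L → Matrix V V ℝ, ∑ x, nsq (M x) = ∑ z : L × V × V, M z.1 z.2.1 z.2.2 ^ 2 := by
      intro M
      rw [Finset.sum_congr rfl fun x _ => (MT2_ip_self (M x)).symm, MT2_sum]
      exact Finset.sum_congr rfl fun z _ => (sq _).symm
    rw [Finset.sum_congr rfl fun x _ => h1 x, MT2_sum, h2, h2]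
    exact Finset.sum_mul_sq_le_sq_mul_sq _ _ _
  · refine Finset.sum_congr rfl fun x _ => ?_
    rw [hn, hn, Matrix.mul_assoc, Matrix.trace_mul_comm, ← Matrix.mul_assoc]

end Pool.Agent.F2
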